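import Pool.Graph.R_seed8.Helper732.SInf.Hard

/-!
# Thin classes of pro-countable groups, and weak forms of topological isomorphism
-/

set_option autoImplicit false

open Set Filter Topology MeasureTheory TopologicalSpace

namespace Pool.Agent.KS6_76.SINF

open Pool.Agent.Helper732.SInf

/-- The closed subgroup is abelian. -/
def IsAbelian (G : ClosedSub) : Prop := ∀ a b : G.1, a * b = b * a

/-- The elements of finite order are dense. -/
def TorsionDense (G : ClosedSub) : Prop := Dense {a : G.1 | IsOfFinOrder a}

/-- The open normal subgroups of finite index have trivial intersection. -/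
def FiniteSeparated (G : ClosedSub) : Prop :=
  ∀ a : G.1, a ≠ 1 → ∃ N : Subgroup G.1, N.Normal ∧ IsOpen (N : Set G.1) ∧ N.FiniteIndex ∧ a ∉ N

/-- Abelian pro-countable groups in which the elements of finite order are dense and the open
subgroups of finite index have trivial intersection. -/
def IsThin (G : ClosedSub) : Prop :=
  IsAbelian G ∧ IsProCountable G ∧ TorsionDense G ∧ FiniteSeparated G

/-- There is a continuous injective homomorphism from `G` to `H`. -/
def ContInj (G H : ClosedSub) : Prop :=
  ∃ φ : G.1 →* H.1, Continuous φ ∧ Function.Injective φ

/-- There is a topological embedding of `G` into `H` (an isomorphism of `G` with a subgroup of `H`,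
with the subspace topology). -/
def TopEmb (G H : ClosedSub) : Prop := ∃ φ : G.1 →* H.1, IsEmbedding φ

end Pool.Agent.KS6_76.SINF
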