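import Pool.Agent.KS6_76.SINF.Defs

/-!
# Every relation between topological isomorphism and continuous injectability is hard
-/

set_option autoImplicit false

open Set Filter Topology MeasureTheory TopologicalSpace

namespace Pool.Agent.KS6_76.SINF

open Pool.Agent.Helper732.SInf

theorem of_contInj {P Q : Set Idx} (h : ContInj (HC P) (HC Q)) : ∃ T : GP P →+ GP Q,
    Function.Injective T ∧ ∀ i, ∃ j, ∀ g : GP P, g.1 ∈ NN j → (T g).1 ∈ NN i := by
  obtain ⟨φ, hφ, hi⟩ := h
  change HH P →* HH Q at φ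
  let ψ : Multiplicative (GP P) →* Multiplicative (GP Q) :=
    ((eP Q).symm.toMonoidHom.comp φ).comp (eP P).toMonoidHom
  have hψ : Function.Injective ψ := (eP Q).symm.injective.comp (hi.comp (eP P).injective)
  let T : GP P →+ GP Q :=
    { toFun := fun g => (ψ (Multiplicative.ofAdd g)).toAdd
      map_zero' := by
        have : Multiplicative.ofAdd (0 : GP P) = 1 := rfl
        rw [this, map_one]
        rfl
      map_add' := fun g h => by
        have : Multiplicative.ofAdd (g + h) = Multiplicative.ofAdd g * Multiplicative.ofAdd h := rfl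
        rw [this, map_mul]
        rfl }
  have hT : ∀ g : GP P, φ (eP P (Multiplicative.ofAdd g)) = eP Q (Multiplicative.ofAdd (T g)) := by
    intro g
    have : Multiplicative.ofAdd (T g) = ψ (Multiplicative.ofAdd g) := rfl
    rw [this]
    simp [ψ]
  refine ⟨T, ?_, ?_⟩
  · intro g h hgh
    have h1 : Multiplicative.ofAdd (T g) = Multiplicative.ofAdd (T h) := by rw [hgh]
    exact Multiplicative.ofAdd.injective (hψ h1)
  · intro i
    have hopen : IsOpen {σ : HH P | ((φ σ : HH Q) : Equiv.Perm ℕ) (en ⟨i, 0⟩) = en ⟨i, 0⟩} :=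
      (isOpen_agree _ _).preimage (continuous_subtype_val.comp hφ)
    obtain ⟨U, hU, hUe⟩ := isOpen_induced_iff.1 hopen
    have h1 : (1 : Equiv.Perm ℕ) ∈ U := by
      have : (1 : HH P) ∈ Subtype.val ⁻¹' U := by
        rw [hUe]
        simp
      exact this
    obtain ⟨S, hS⟩ := exists_finset hU h1
    obtain ⟨j, hj⟩ := exists_lev S
    refine ⟨j, fun g hg => ?_⟩
    have h2 : (eP P (Multiplicative.ofAdd g) : HH P) ∈ (Subtype.val ⁻¹' U : Set (HH P)) := by
      refine hS _ fun n hn => ?_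
      rw [eP_val, toAdd_ofAdd, ← toPerm_zero]
      exact toPerm_eq_of_lev (hj n hn) (by rwa [sub_zero])
    rw [hUe] at h2
    have h3 : ((φ (eP P (Multiplicative.ofAdd g)) : HH Q) : Equiv.Perm ℕ) (en ⟨i, 0⟩) = en ⟨i, 0⟩ := h2
    rw [hT, eP_val, toAdd_ofAdd] at h3
    have h4 : toPerm (T g).1 (en ⟨i, 0⟩) = toPerm 0 (en ⟨i, 0⟩) := by
      rw [h3, toPerm_zero]; rfl
    have := toPerm_eq_iff.1 h4
    rwa [sub_zero] at this

theorem rel_of_contInj {f : (ℕ → ℕ) → (ℕ → Bool) × (ℕ → Bool)} (hf : Continuous f)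
    (E : (ℕ → Bool) → (ℕ → Bool) → Prop) (hE : Equivalence E)
    (hfE : ∀ γ, E (f γ).1 (f γ).2) {x y : ℕ → Bool} (h : ContInj (HC (PX f x)) (HC (PX f y))) :
    E y x := by
  obtain ⟨T, hinj, hT⟩ := of_contInj h
  choose J hJ using hT
  exact limit hf E hE hfE J x y fun k hk => bounded_of_hom T hinj J hJ k (by omega)

/-! ### the groups are thin -/

theorem comm_HH (P : Set Idx) (σ τ : HH P) : σ * τ = τ * σ := by
  obtain ⟨g, rfl⟩ := (eP P).surjective σ
  obtain ⟨h, rfl⟩ := (eP P).surjective τ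
  rw [← map_mul, ← map_mul, mul_comm]

theorem torsionDense_HC (P : Set Idx) : TorsionDense (HC P) := by
  intro σ
  rw [mem_closure_iff]
  intro U hU hσ
  obtain ⟨V, hV, rfl⟩ := isOpen_induced_iff.1 hU
  obtain ⟨S, hS⟩ := exists_finset hV (show (σ : Equiv.Perm ℕ) ∈ V from hσ)
  obtain ⟨i, hi⟩ := exists_lev S
  obtain ⟨g, rfl⟩ := (eP P).surjective σ
  obtain ⟨g, rfl⟩ : ∃ g' : GP P, Multiplicative.ofAdd g' = g := ⟨g.toAdd, rfl⟩
  let g' : GP P := ⟨trunc i g.1, trunc_mem i g.2⟩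
  refine ⟨eP P (Multiplicative.ofAdd g'), ?_, ?_⟩
  · refine hS _ fun n hn => ?_
    exact toPerm_eq_of_lev (hi n hn) (trunc_sub i g.1)
  · -- finite order
    have hfin := trunc_finite i g.1
    have hpos : ∀ p : Idx, 0 < ell p.k p.v ^ p.k := fun p => pow_pos (ell_prime _ _).pos _
    obtain ⟨N, hN⟩ : ∃ N, N = ∏ p ∈ hfin.toFinset, ell p.k p.v ^ p.k := ⟨_, rfl⟩
    have hNpos : 0 < N := by
      rw [hN]
      exact Finset.prod_pos fun p _ => hpos p
    have h0 : N • g' = 0 := by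
      apply Subtype.ext
      apply Subtype.ext
      funext p
      change N • (trunc i g.1).1 p = 0
      by_cases hp : (trunc i g.1).1 p = 0
      · rw [hp, smul_zero]
      · have hd : ell p.k p.v ^ p.k ∣ N := by
          rw [hN]
          exact Finset.dvd_prod_of_mem (fun p : Idx => ell p.k p.v ^ p.k) (by simpa using hp)
        obtain ⟨d, hd⟩ := hd
        rw [hd, mul_comm, mul_smul, (trunc i g.1).2.1 p, smul_zero]
    change IsOfFinOrder (eP P (Multiplicative.ofAdd g'))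
    rw [isOfFinOrder_iff_pow_eq_one]
    refine ⟨N, hNpos, ?_⟩
    rw [← map_pow, ← ofAdd_nsmul, h0, ofAdd_zero, map_one]

/-- the coordinate at `p` -/
noncomputable def coord (P : Set Idx) (p : Idx) : HH P →* Multiplicative M :=
  (AddMonoidHom.toMultiplicative
    { toFun := fun g : GP P => g.1.1 p, map_zero' := rfl, map_add' := fun _ _ => rfl }).comp
    (eP P).symm.toMonoidHom

theorem coord_eP (P : Set Idx) (p : Idx) (g : GP P) :
    coord P p (eP P (Multiplicative.ofAdd g)) = Multiplicative.ofAdd (g.1.1 p) := by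
  simp [coord]

theorem finiteSeparated_HC (P : Set Idx) : FiniteSeparated (HC P) := by
  intro σ hσ
  change HH P at σ
  obtain ⟨g, rfl⟩ := (eP P).surjective σ
  obtain ⟨g, rfl⟩ : ∃ g' : GP P, Multiplicative.ofAdd g' = g := ⟨g.toAdd, rfl⟩
  have hne : ∃ p, g.1.1 p ≠ 0 := by
    by_contra hc
    push Not at hc
    apply hσ
    have : g = 0 := Subtype.ext (Subtype.ext (funext hc))
    rw [this, ofAdd_zero, map_one]
    rfl
  obtain ⟨p, hp⟩ := hne
  refine ⟨(coord P p).ker, MonoidHom.normal_ker _, ?_, ?_, ?_⟩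
  · -- open
    change IsOpen ((coord P p).ker : Set (HH P))
    rw [isOpen_iff_forall_mem_open]
    intro τ hτ
    refine ⟨{τ' : HH P | (τ' : Equiv.Perm ℕ) (en ⟨p.k, 0⟩) = (τ : Equiv.Perm ℕ) (en ⟨p.k, 0⟩)},
      fun τ' hτ' => ?_, (isOpen_agree _ _).preimage continuous_subtype_val, rfl⟩
    obtain ⟨h, rfl⟩ := (eP P).surjective τ
    obtain ⟨h, rfl⟩ : ∃ h' : GP P, Multiplicative.ofAdd h' = h := ⟨h.toAdd, rfl⟩
    obtain ⟨h', rfl⟩ := (eP P).surjective τ'
    obtain ⟨h', rfl⟩ : ∃ h'' : GP P, Multiplicative.ofAdd h'' = h' := ⟨h'.toAdd, rfl⟩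
    have h4 : toPerm h'.1 (en ⟨p.k, 0⟩) = toPerm h.1 (en ⟨p.k, 0⟩) := hτ'
    have h5 := NN_big (toPerm_eq_iff.1 h4) (le_refl p.k)
    have h6 : h'.1.1 p = h.1.1 p := sub_eq_zero.1 h5
    have h7 : coord P p (eP P (Multiplicative.ofAdd h)) = 1 := hτ
    change coord P p _ = 1
    rw [coord_eP, h6, ← coord_eP]
    exact h7
  · -- finite index
    have hfin : (((coord P p).range : Subgroup (Multiplicative M)) : Set (Multiplicative M)).Finite := by
      have h1 : {u : M | ell p.k p.v ^ p.k • u = 0}.Finite :=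
        AddCircle.finite_torsion 1 (pow_pos (ell_prime _ _).pos _)
      refine (h1.image Multiplicative.ofAdd).subset ?_
      rintro _ ⟨τ, rfl⟩
      obtain ⟨h, rfl⟩ := (eP P).surjective τ
      obtain ⟨h, rfl⟩ : ∃ h' : GP P, Multiplicative.ofAdd h' = h := ⟨h.toAdd, rfl⟩
      exact ⟨h.1.1 p, h.1.2.1 p, (coord_eP P p h).symm⟩
    have : Finite (coord P p).range := hfin
    change (coord P p).ker.FiniteIndex
    infer_instance
  · intro hmem
    have : coord P p (eP P (Multiplicative.ofAdd g)) = 1 := hmem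
    rw [coord_eP] at this
    exact hp (Multiplicative.ofAdd.injective this)

theorem isThin_HC (P : Set Idx) : IsThin (HC P) :=
  ⟨comm_HH P, isProCountable_HC P, torsionDense_HC P, finiteSeparated_HC P⟩

/-! ### the reduction -/

theorem cantor_strong (E : (ℕ → Bool) → (ℕ → Bool) → Prop) (hE : Equivalence E)
    (hA : AnalyticSet {p : (ℕ → Bool) × (ℕ → Bool) | E p.1 p.2}) :
    ∃ r : (ℕ → Bool) → ClosedSub, Measurable r ∧ (∀ x, IsThin (r x)) ∧
      ∀ x y, (E x y → TopIso (r x) (r y)) ∧ (ContInj (r x) (r y) → E x y) := by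
  rw [AnalyticSet] at hA
  rcases hA with h | ⟨f, hf, hr⟩
  · exfalso
    have : ((fun _ => true, fun _ => true) : (ℕ → Bool) × (ℕ → Bool)) ∈
        {p : (ℕ → Bool) × (ℕ → Bool) | E p.1 p.2} := hE.refl _
    rw [h] at this
    exact this
  · have hfE : ∀ γ, E (f γ).1 (f γ).2 := by
      intro γ
      have : f γ ∈ {p : (ℕ → Bool) × (ℕ → Bool) | E p.1 p.2} := by
        rw [← hr]; exact ⟨γ, rfl⟩
      exact this
    refine ⟨fun x => HC (PX f x), measurable_HC f, fun x => isThin_HC _, fun x y => ⟨?_, ?_⟩⟩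
    · intro hxy
      have : (x, y) ∈ Set.range f := by rw [hr]; exact hxy
      obtain ⟨γ, hγ⟩ := this
      have h := topIso_of_rel (f := f) γ
      rw [hγ] at h
      exact h
    · intro h
      exact hE.symm (rel_of_contInj hf E hE hfE h)

universe u

/-- Every analytic equivalence relation is reduced, at the same time, to topological isomorphism of
thin groups and to all weaker relations which imply continuous injectability. -/
theorem strong_reduction (X : Type u) [MeasurableSpace X] [StandardBorelSpace X]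
    (F : X → X → Prop) (hF : Equivalence F) (hFA : IsAnalytic {p : X × X | F p.1 p.2}) :
    ∃ r : X → ClosedSub, Measurable r ∧ (∀ x, IsThin (r x)) ∧
      ∀ x y, (F x y → TopIso (r x) (r y)) ∧ (ContInj (r x) (r y) → F x y) := by
  obtain ⟨e, he, hinj⟩ := MeasurableSpace.measurable_injection_nat_bool_of_countablySeparated X
  let E : (ℕ → Bool) → (ℕ → Bool) → Prop := fun u v => u = v ∨ ∃ x y, e x = u ∧ e y = v ∧ F x y
  have hE : Equivalence E := by
    refine ⟨fun u => Or.inl rfl, ?_, ?_⟩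
    · rintro u v (h | ⟨x, y, h1, h2, h3⟩)
      · exact Or.inl h.symm
      · exact Or.inr ⟨y, x, h2, h1, hF.symm h3⟩
    · rintro u v w (rfl | ⟨x, y, h1, h2, h3⟩) (rfl | ⟨x', y', h1', h2', h3'⟩)
      · exact Or.inl rfl
      · exact Or.inr ⟨x', y', h1', h2', h3'⟩
      · exact Or.inr ⟨x, y, h1, h2, h3⟩
      · have : y = x' := hinj (h2.trans h1'.symm)
        subst this
        exact Or.inr ⟨x, y', h1, h2', hF.trans h3 h3'⟩
  have hEF : ∀ x y, F x y ↔ E (e x) (e y) := by
    intro x y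
    constructor
    · intro h
      exact Or.inr ⟨x, y, rfl, rfl, h⟩
    · rintro (h | ⟨x', y', h1, h2, h3⟩)
      · rw [hinj h]
        exact hF.refl _
      · rw [← hinj h1, ← hinj h2]
        exact h3
  have hA : AnalyticSet {p : (ℕ → Bool) × (ℕ → Bool) | E p.1 p.2} := by
    obtain ⟨B, g, hB, hg, hgr⟩ := hFA
    have hBs : StandardBorelSpace B := hB.standardBorel
    have h1 : AnalyticSet ((fun b => (e (g b).1, e (g b).2)) '' (Set.univ : Set B)) :=
      MeasurableSet.univ.analyticSet_image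
        ((he.comp (measurable_fst.comp hg)).prodMk (he.comp (measurable_snd.comp hg)))
    have h2 : AnalyticSet (Set.diagonal (ℕ → Bool)) := isClosed_diagonal.analyticSet
    have h3 : {p : (ℕ → Bool) × (ℕ → Bool) | E p.1 p.2} =
        Set.diagonal (ℕ → Bool) ∪ (fun b => (e (g b).1, e (g b).2)) '' (Set.univ : Set B) := by
      ext ⟨u, v⟩
      simp only [mem_ofPred_eq, mem_union, mem_diagonal_iff, mem_image, mem_univ, true_and,
        Prod.mk.injEq, E]
      refine or_congr Iff.rfl ⟨?_, ?_⟩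
      · rintro ⟨x, y, h1, h2, h3⟩
        have : (x, y) ∈ Set.range g := by rw [hgr]; exact h3
        obtain ⟨b, hb⟩ := this
        exact ⟨b, by rw [hb]; exact h1, by rw [hb]; exact h2⟩
      · rintro ⟨b, h1, h2⟩
        refine ⟨(g b).1, (g b).2, h1, h2, ?_⟩
        have : g b ∈ Set.range g := ⟨b, rfl⟩
        rw [hgr] at this
        exact this
    rw [h3, Set.union_eq_iUnion]
    refine AnalyticSet.iUnion fun b => ?_
    cases b
    · exact h1
    · exact h2
  obtain ⟨r, hr, hpc, hrE⟩ := cantor_strong E hE hA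
  refine ⟨fun x => r (e x), hr.comp he, fun x => hpc _, fun x y => ⟨fun h => ?_, fun h => ?_⟩⟩
  · exact (hrE _ _).1 ((hEF x y).1 h)
  · exact (hEF x y).2 ((hrE _ _).2 h)

theorem hard_of_between (C : Set ClosedSub) (hC : ∀ G, IsThin G → G ∈ C)
    (R : {G : ClosedSub // G ∈ C} → {G : ClosedSub // G ∈ C} → Prop)
    (h1 : ∀ G H, TopIso G.1 H.1 → R G H) (h2 : ∀ G H, R G H → ContInj G.1 H.1) :
    AnalyticHard.{u} R := by
  intro X _ _ F hF hFA
  obtain ⟨r, hr, ht, hrF⟩ := strong_reduction X F hF hFA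
  refine ⟨fun x => ⟨r x, hC _ (ht x)⟩, hr.subtype_mk, fun x y => ⟨fun h => ?_, fun h => ?_⟩⟩
  · exact h1 _ _ ((hrF x y).1 h)
  · exact (hrF x y).2 (h2 _ _ h)

theorem TopIso.contInj {G H : ClosedSub} (h : TopIso G H) : ContInj G H := by
  obtain ⟨φ, h1, -⟩ := h
  exact ⟨φ.toMonoidHom, h1, φ.injective⟩

theorem TopIso.topEmb {G H : ClosedSub} (h : TopIso G H) : TopEmb G H := by
  obtain ⟨φ, h1, h2⟩ := h
  exact ⟨φ.toMonoidHom, (Homeomorph.mk φ.toEquiv h1 h2).isEmbedding⟩

theorem TopIso.symm' {G H : ClosedSub} (h : TopIso G H) : TopIso H G := by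
  obtain ⟨φ, h1, h2⟩ := h
  exact ⟨φ.symm, h2, h1⟩

theorem TopEmb.contInj {G H : ClosedSub} (h : TopEmb G H) : ContInj G H := by
  obtain ⟨φ, h1⟩ := h
  exact ⟨φ, h1.continuous, h1.injective⟩

/-! ### the class of abelian closed subgroups -/

instance : SecondCountableTopology (Equiv.Perm ℕ) :=
  TopologicalSpace.secondCountableTopology_induced _ _ (fun σ : Equiv.Perm ℕ => (σ : ℕ → ℕ))

theorem measurableSet_meets {U : Set (Equiv.Perm ℕ)} (hU : IsOpen U) :
    MeasurableSet {G : ClosedSub | ((G.1 : Set (Equiv.Perm ℕ)) ∩ U).Nonempty} :=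
  MeasurableSpace.measurableSet_generateFrom ⟨U, hU, rfl⟩

/-- Non-commuting permutations have neighbourhoods of non-commuting permutations. -/
theorem exists_open_of_ne {σ τ : Equiv.Perm ℕ} (h : σ * τ ≠ τ * σ) :
    ∃ U V : Set (Equiv.Perm ℕ), IsOpen U ∧ IsOpen V ∧ σ ∈ U ∧ τ ∈ V ∧
      ∀ σ' ∈ U, ∀ τ' ∈ V, σ' * τ' ≠ τ' * σ' := by
  obtain ⟨n, hn⟩ : ∃ n, σ (τ n) ≠ τ (σ n) := by
    by_contra hc
    push Not at hc
    exact h (Equiv.ext hc)
  refine ⟨{σ' | σ' n = σ n} ∩ {σ' | σ' (τ n) = σ (τ n)},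
    {τ' | τ' n = τ n} ∩ {τ' | τ' (σ n) = τ (σ n)}, (isOpen_agree _ _).inter (isOpen_agree _ _),
    (isOpen_agree _ _).inter (isOpen_agree _ _), ⟨rfl, rfl⟩, ⟨rfl, rfl⟩, ?_⟩
  rintro σ' ⟨h1, h2⟩ τ' ⟨h3, h4⟩ he
  have h5 := congrArg (fun ρ : Equiv.Perm ℕ => ρ n) he
  simp only [Equiv.Perm.mul_apply] at h5
  simp only [mem_ofPred_eq] at h1 h2 h3 h4
  rw [h3, h1, h2, h4] at h5
  exact hn h5

theorem measurableSet_isAbelian : MeasurableSet {G : ClosedSub | IsAbelian G} := by
  have hb := TopologicalSpace.isBasis_countableBasis (Equiv.Perm ℕ)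
  have hcb := TopologicalSpace.countable_countableBasis (Equiv.Perm ℕ)
  have e : {G : ClosedSub | IsAbelian G}ᶜ =
      ⋃ U ∈ TopologicalSpace.countableBasis (Equiv.Perm ℕ),
        ⋃ V ∈ {V ∈ TopologicalSpace.countableBasis (Equiv.Perm ℕ) |
          ∀ σ ∈ U, ∀ τ ∈ V, σ * τ ≠ τ * σ},
        {G : ClosedSub | ((G.1 : Set (Equiv.Perm ℕ)) ∩ U).Nonempty} ∩
          {G : ClosedSub | ((G.1 : Set (Equiv.Perm ℕ)) ∩ V).Nonempty} := by
    ext G
    simp only [mem_compl_iff, mem_iUnion, exists_prop, mem_inter_iff]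
    constructor
    · intro hG
      have : ∃ a b : G.1, a * b ≠ b * a := by
        by_contra hc
        push Not at hc
        exact hG hc
      obtain ⟨a, b, hab⟩ := this
      have hab' : (a : Equiv.Perm ℕ) * b ≠ b * a := fun h => hab (Subtype.ext h)
      obtain ⟨U, V, hU, hV, ha, hb', hUV⟩ := exists_open_of_ne hab'
      obtain ⟨U', hU', haU, hUU⟩ := hb.exists_subset_of_mem_open ha hU
      obtain ⟨V', hV', hbV, hVV⟩ := hb.exists_subset_of_mem_open hb' hV
      exact ⟨U', hU', V', ⟨hV', fun σ hσ τ hτ => hUV σ (hUU hσ) τ (hVV hτ)⟩, ⟨a, a.2, haU⟩,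
        ⟨b, b.2, hbV⟩⟩
    · rintro ⟨U, hU, V, ⟨hV, hUV⟩, ⟨a, ha, haU⟩, ⟨b, hb', hbV⟩⟩ hG
      exact hUV a haU b hbV (congrArg Subtype.val (hG ⟨a, ha⟩ ⟨b, hb'⟩))
  rw [← MeasurableSet.compl_iff, e]
  refine MeasurableSet.biUnion hcb fun U hU => ?_
  refine MeasurableSet.biUnion (hcb.mono fun V hV => hV.1) fun V hV => ?_
  exact (measurableSet_meets (hb.isOpen hU)).inter (measurableSet_meets (hb.isOpen hV.1))

theorem isInvariant_isAbelian : IsInvariant {G : ClosedSub | IsAbelian G} := by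
  rintro G H hG ⟨φ, -, -⟩ a b
  obtain ⟨a, rfl⟩ := φ.surjective a
  obtain ⟨b, rfl⟩ := φ.surjective b
  rw [← map_mul, ← map_mul, hG a b]

end Pool.Agent.KS6_76.SINF
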