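import Pool.Agent.KS6_76.SINF.Main
import Pool.Graph.R_pool_sql_team_seeded_1acbe0a2.Y403.SI.Quasi

/-!
# Slim groups: analytic quasi-orders and equivalence relations
-/

set_option autoImplicit false

open Set Filter Topology MeasureTheory TopologicalSpace

namespace Pool.Agent.KS6_76.SINF

open Pool.Agent.Helper732.SInf
open Pool.Agent.Y403.SI (IsTopTorsion ClosedEmb QuasiOrderHard)

universe u

/-- For every prime `ℓ` the elements whose order is a power of `ℓ` have bounded order. -/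
def PrimaryBounded (G : ClosedSub) : Prop :=
  ∀ l : ℕ, l.Prime → ∃ N : ℕ, ∀ a : G.1, (∃ m : ℕ, a ^ (l ^ m) = 1) → a ^ (l ^ N) = 1

/-- Thin, topologically torsion, and with primary components of bounded exponent. -/
def IsSlim (G : ClosedSub) : Prop := IsThin G ∧ IsTopTorsion G ∧ PrimaryBounded G

theorem pow_eP (P : Set Idx) (g : GP P) (n : ℕ) :
    (eP P (Multiplicative.ofAdd g) : HH P) ^ n = eP P (Multiplicative.ofAdd (n • g)) := by
  rw [← map_pow, ← ofAdd_nsmul]

theorem eP_eq_one {P : Set Idx} {g : GP P} :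
    (eP P (Multiplicative.ofAdd g) : HH P) = 1 ↔ ∀ p, g.1.1 p = 0 := by
  constructor
  · intro h p
    have h1 : Multiplicative.ofAdd g = 1 := (eP P).injective (by rw [h, map_one])
    have h2 : g = 0 := Multiplicative.ofAdd.injective h1
    rw [h2]
    rfl
  · intro h
    have : g = 0 := Subtype.ext (Subtype.ext (funext h))
    rw [this, ofAdd_zero, map_one]

theorem primaryBounded_HC (P : Set Idx) : PrimaryBounded (HC P) := by
  intro l hl
  have key : ∀ (g : GP P) (m : ℕ) (p : Idx), l ^ m • g.1.1 p = 0 → ell p.k p.v ≠ l →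
      g.1.1 p = 0 := by
    intro g m p h1 h2
    have h3 : addOrderOf (g.1.1 p) ∣ l ^ m := addOrderOf_dvd_of_nsmul_eq_zero h1
    have h4 : addOrderOf (g.1.1 p) ∣ ell p.k p.v ^ p.k :=
      addOrderOf_dvd_of_nsmul_eq_zero (g.1.2.1 p)
    have h5 : Nat.Coprime (l ^ m) (ell p.k p.v ^ p.k) :=
      Nat.Coprime.pow _ _ ((Nat.coprime_primes hl (ell_prime _ _)).2 (Ne.symm h2))
    have h6 : addOrderOf (g.1.1 p) = 1 := Nat.eq_one_of_dvd_coprimes h5 h3 h4
    exact AddMonoid.addOrderOf_eq_one_iff.1 h6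
  have main : ∃ N : ℕ, ∀ (g : GP P) (m : ℕ), (∀ p, l ^ m • g.1.1 p = 0) →
      ∀ p, l ^ N • g.1.1 p = 0 := by
    by_cases h : ∃ k, ∃ v : Fin k → Bool, ell k v = l
    · obtain ⟨k, v, hkv⟩ := h
      refine ⟨k, fun g m hg p => ?_⟩
      by_cases hp : ell p.k p.v = l
      · have h1 := ell_inj (hp.trans hkv.symm)
        have h2 : p.k = k := congrArg Sigma.fst h1
        have h3 := g.1.2.1 p
        rw [hp, h2] at h3
        exact h3
      · rw [key g m p (hg p) hp, smul_zero]
    · refine ⟨0, fun g m hg p => ?_⟩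
      have hp : ell p.k p.v ≠ l := fun hp => h ⟨p.k, p.v, hp⟩
      rw [key g m p (hg p) hp, smul_zero]
  obtain ⟨N, hN⟩ := main
  refine ⟨N, ?_⟩
  intro a ha
  change HH P at a
  obtain ⟨g, rfl⟩ := (eP P).surjective a
  obtain ⟨g, rfl⟩ : ∃ g' : GP P, Multiplicative.ofAdd g' = g := ⟨g.toAdd, rfl⟩
  obtain ⟨m, hm⟩ := ha
  have hm' : (eP P (Multiplicative.ofAdd g) : HH P) ^ (l ^ m) = 1 := hm
  rw [pow_eP, eP_eq_one] at hm'
  change (eP P (Multiplicative.ofAdd g) : HH P) ^ (l ^ N) = 1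
  rw [pow_eP, eP_eq_one]
  exact hN g m hm'

theorem isSlim_HC (P : Set Idx) : IsSlim (HC P) :=
  ⟨isThin_HC P, Pool.Agent.Y403.SI.isTopTorsion_HC P, primaryBounded_HC P⟩

/-! ### equivalence relations -/

theorem cantor_slim (E : (ℕ → Bool) → (ℕ → Bool) → Prop) (hE : Equivalence E)
    (hA : AnalyticSet {p : (ℕ → Bool) × (ℕ → Bool) | E p.1 p.2}) :
    ∃ r : (ℕ → Bool) → ClosedSub, Measurable r ∧ (∀ x, IsSlim (r x)) ∧
      ∀ x y, (E x y → TopIso (r x) (r y)) ∧ (ContInj (r x) (r y) → E x y) := by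
  rw [AnalyticSet] at hA
  rcases hA with h | ⟨f, hf, hr⟩
  · exfalso
    have : ((fun _ => true, fun _ => true) : (ℕ → Bool) × (ℕ → Bool)) ∈
        {p : (ℕ → Bool) × (ℕ → Bool) | E p.1 p.2} := hE.refl _
    rw [h] at this
    exact this
  · have hfE : ∀ γ, E (f γ).1 (f γ).2 := by
      intro γ
      have : f γ ∈ {p : (ℕ → Bool) × (ℕ → Bool) | E p.1 p.2} := by
        rw [← hr]; exact ⟨γ, rfl⟩
      exact this
    refine ⟨fun x => HC (PX f x), measurable_HC f, fun x => isSlim_HC _, fun x y => ⟨?_, ?_⟩⟩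
    · intro hxy
      have : (x, y) ∈ Set.range f := by rw [hr]; exact hxy
      obtain ⟨γ, hγ⟩ := this
      have h := topIso_of_rel (f := f) γ
      rw [hγ] at h
      exact h
    · intro h
      exact hE.symm (rel_of_contInj hf E hE hfE h)

/-- Every analytic equivalence relation is reduced, at the same time, to topological isomorphism of
slim groups and to all weaker relations which imply continuous injectability. -/
theorem slim_reduction (X : Type u) [MeasurableSpace X] [StandardBorelSpace X]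
    (F : X → X → Prop) (hF : Equivalence F) (hFA : IsAnalytic {p : X × X | F p.1 p.2}) :
    ∃ r : X → ClosedSub, Measurable r ∧ (∀ x, IsSlim (r x)) ∧
      ∀ x y, (F x y → TopIso (r x) (r y)) ∧ (ContInj (r x) (r y) → F x y) := by
  obtain ⟨e, he, hinj⟩ := MeasurableSpace.measurable_injection_nat_bool_of_countablySeparated X
  let E : (ℕ → Bool) → (ℕ → Bool) → Prop := fun u v => u = v ∨ ∃ x y, e x = u ∧ e y = v ∧ F x y
  have hE : Equivalence E := by
    refine ⟨fun u => Or.inl rfl, ?_, ?_⟩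
    · rintro u v (h | ⟨x, y, h1, h2, h3⟩)
      · exact Or.inl h.symm
      · exact Or.inr ⟨y, x, h2, h1, hF.symm h3⟩
    · rintro u v w (rfl | ⟨x, y, h1, h2, h3⟩) (rfl | ⟨x', y', h1', h2', h3'⟩)
      · exact Or.inl rfl
      · exact Or.inr ⟨x', y', h1', h2', h3'⟩
      · exact Or.inr ⟨x, y, h1, h2, h3⟩
      · have : y = x' := hinj (h2.trans h1'.symm)
        subst this
        exact Or.inr ⟨x, y', h1, h2', hF.trans h3 h3'⟩
  have hEF : ∀ x y, F x y ↔ E (e x) (e y) := by
    intro x y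
    constructor
    · intro h
      exact Or.inr ⟨x, y, rfl, rfl, h⟩
    · rintro (h | ⟨x', y', h1, h2, h3⟩)
      · rw [hinj h]
        exact hF.refl _
      · rw [← hinj h1, ← hinj h2]
        exact h3
  have hA : AnalyticSet {p : (ℕ → Bool) × (ℕ → Bool) | E p.1 p.2} := by
    obtain ⟨B, g, hB, hg, hgr⟩ := hFA
    have hBs : StandardBorelSpace B := hB.standardBorel
    have h1 : AnalyticSet ((fun b => (e (g b).1, e (g b).2)) '' (Set.univ : Set B)) :=
      MeasurableSet.univ.analyticSet_image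
        ((he.comp (measurable_fst.comp hg)).prodMk (he.comp (measurable_snd.comp hg)))
    have h2 : AnalyticSet (Set.diagonal (ℕ → Bool)) := isClosed_diagonal.analyticSet
    have h3 : {p : (ℕ → Bool) × (ℕ → Bool) | E p.1 p.2} =
        Set.diagonal (ℕ → Bool) ∪ (fun b => (e (g b).1, e (g b).2)) '' (Set.univ : Set B) := by
      ext ⟨u, v⟩
      simp only [mem_ofPred_eq, mem_union, mem_diagonal_iff, mem_image, mem_univ, true_and,
        Prod.mk.injEq, E]
      refine or_congr Iff.rfl ⟨?_, ?_⟩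
      · rintro ⟨x, y, h1, h2, h3⟩
        have : (x, y) ∈ Set.range g := by rw [hgr]; exact h3
        obtain ⟨b, hb⟩ := this
        exact ⟨b, by rw [hb]; exact h1, by rw [hb]; exact h2⟩
      · rintro ⟨b, h1, h2⟩
        refine ⟨(g b).1, (g b).2, h1, h2, ?_⟩
        have : g b ∈ Set.range g := ⟨b, rfl⟩
        rw [hgr] at this
        exact this
    rw [h3, Set.union_eq_iUnion]
    refine AnalyticSet.iUnion fun b => ?_
    cases b
    · exact h1
    · exact h2
  obtain ⟨r, hr, hpc, hrE⟩ := cantor_slim E hE hA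
  refine ⟨fun x => r (e x), hr.comp he, fun x => hpc _, fun x y => ⟨fun h => ?_, fun h => ?_⟩⟩
  · exact (hrE _ _).1 ((hEF x y).1 h)
  · exact (hEF x y).2 ((hrE _ _).2 h)

/-! ### quasi-orders -/

theorem cantor_quasi (E : (ℕ → Bool) → (ℕ → Bool) → Prop) (hrefl : ∀ x, E x x)
    (htrans : ∀ x y z, E x y → E y z → E x z)
    (hA : AnalyticSet {p : (ℕ → Bool) × (ℕ → Bool) | E p.1 p.2}) :
    ∃ r : (ℕ → Bool) → ClosedSub, Measurable r ∧ (∀ x, IsSlim (r x)) ∧
      (∀ x y, E x y → ClosedEmb (r y) (r x)) ∧ ∀ x y, ContInj (r y) (r x) → E x y := by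
  rw [AnalyticSet] at hA
  rcases hA with h | ⟨f, hf, hr⟩
  · exfalso
    have : ((fun _ => true, fun _ => true) : (ℕ → Bool) × (ℕ → Bool)) ∈
        {p : (ℕ → Bool) × (ℕ → Bool) | E p.1 p.2} := hrefl _
    rw [h] at this
    exact this
  · have hfE : ∀ γ, E (f γ).1 (f γ).2 := by
      intro γ
      have : f γ ∈ {p : (ℕ → Bool) × (ℕ → Bool) | E p.1 p.2} := by
        rw [← hr]; exact ⟨γ, rfl⟩
      exact this
    refine ⟨fun x => HC (Pool.Agent.Y403.SI.DX f x),
      Pool.Agent.Y403.SI.measurable_HC_of _ (Pool.Agent.Y403.SI.measurableSet_DX f),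
      fun x => isSlim_HC _, fun x y hxy => ?_, fun x y h => ?_⟩
    · have : (x, y) ∈ Set.range f := by rw [hr]; exact hxy
      obtain ⟨γ, hγ⟩ := this
      have h := Pool.Agent.Y403.SI.closedEmb_of_rel (f := f) γ
      rw [hγ] at h
      exact h
    · exact Pool.Agent.Y403.SI.rel_of_contInj_DX hf E hrefl htrans hfE h

/-- Every analytic quasi-order is reduced, at the same time, to closed embeddability of slim groups
and to all weaker relations which imply continuous injectability. -/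
theorem slim_quasi (X : Type u) [MeasurableSpace X] [StandardBorelSpace X]
    (F : X → X → Prop) (hrefl : ∀ x, F x x) (htrans : ∀ x y z, F x y → F y z → F x z)
    (hFA : IsAnalytic {p : X × X | F p.1 p.2}) :
    ∃ r : X → ClosedSub, Measurable r ∧ (∀ x, IsSlim (r x)) ∧
      ∀ x y, (F x y → ClosedEmb (r x) (r y)) ∧ (ContInj (r x) (r y) → F x y) := by
  obtain ⟨e, he, hinj⟩ := MeasurableSpace.measurable_injection_nat_bool_of_countablySeparated X
  let E : (ℕ → Bool) → (ℕ → Bool) → Prop := fun u v => u = v ∨ ∃ x y, e x = u ∧ e y = v ∧ F y x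
  have hErefl : ∀ u, E u u := fun u => Or.inl rfl
  have hEtrans : ∀ u v w, E u v → E v w → E u w := by
    rintro u v w (rfl | ⟨x, y, h1, h2, h3⟩) (rfl | ⟨x', y', h1', h2', h3'⟩)
    · exact Or.inl rfl
    · exact Or.inr ⟨x', y', h1', h2', h3'⟩
    · exact Or.inr ⟨x, y, h1, h2, h3⟩
    · have : y = x' := hinj (h2.trans h1'.symm)
      subst this
      exact Or.inr ⟨x, y', h1, h2', htrans _ _ _ h3' h3⟩
  have hEF : ∀ x y, F x y ↔ E (e y) (e x) := by
    intro x y
    constructor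
    · intro h
      exact Or.inr ⟨y, x, rfl, rfl, h⟩
    · rintro (h | ⟨y', x', h1, h2, h3⟩)
      · rw [hinj h]
        exact hrefl _
      · rw [← hinj h1, ← hinj h2]
        exact h3
  have hA : AnalyticSet {p : (ℕ → Bool) × (ℕ → Bool) | E p.1 p.2} := by
    obtain ⟨B, g, hB, hg, hgr⟩ := hFA
    have hBs : StandardBorelSpace B := hB.standardBorel
    have h1 : AnalyticSet ((fun b => (e (g b).2, e (g b).1)) '' (Set.univ : Set B)) :=
      MeasurableSet.univ.analyticSet_image
        ((he.comp (measurable_snd.comp hg)).prodMk (he.comp (measurable_fst.comp hg)))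
    have h2 : AnalyticSet (Set.diagonal (ℕ → Bool)) := isClosed_diagonal.analyticSet
    have h3 : {p : (ℕ → Bool) × (ℕ → Bool) | E p.1 p.2} =
        Set.diagonal (ℕ → Bool) ∪ (fun b => (e (g b).2, e (g b).1)) '' (Set.univ : Set B) := by
      ext ⟨u, v⟩
      simp only [mem_ofPred_eq, mem_union, mem_diagonal_iff, mem_image, mem_univ, true_and,
        Prod.mk.injEq, E]
      refine or_congr Iff.rfl ⟨?_, ?_⟩
      · rintro ⟨x, y, h1, h2, h3⟩
        have : (y, x) ∈ Set.range g := by rw [hgr]; exact h3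
        obtain ⟨b, hb⟩ := this
        exact ⟨b, by rw [hb]; exact h1, by rw [hb]; exact h2⟩
      · rintro ⟨b, h1, h2⟩
        refine ⟨(g b).2, (g b).1, h1, h2, ?_⟩
        have : g b ∈ Set.range g := ⟨b, rfl⟩
        rw [hgr] at this
        exact this
    rw [h3, Set.union_eq_iUnion]
    refine AnalyticSet.iUnion fun b => ?_
    cases b
    · exact h1
    · exact h2
  obtain ⟨r, hr, hpc, hr1, hr2⟩ := cantor_quasi E hErefl hEtrans hA
  refine ⟨fun x => r (e x), hr.comp he, fun x => hpc _, fun x y => ⟨fun h => ?_, fun h => ?_⟩⟩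
  · exact hr1 _ _ ((hEF x y).1 h)
  · exact (hEF x y).2 (hr2 _ _ h)

/-- Classes containing all slim groups. -/
theorem slim_classes (C : Set ClosedSub) (hC : ∀ G, IsSlim G → G ∈ C)
    (R : {G : ClosedSub // G ∈ C} → {G : ClosedSub // G ∈ C} → Prop)
    (hR : ∀ G H, R G H → ContInj G.1 H.1) :
    ((∀ G H, TopIso G.1 H.1 → R G H) →
      AnalyticHard.{u} R ∧ ¬ BorelReducible R GraphIso) ∧
    ((∀ G H, ClosedEmb G.1 H.1 → R G H) → QuasiOrderHard.{u} R) := by
  have key : ∀ (h1 : ∀ G H, TopIso G.1 H.1 → R G H), (AnalyticHard.{u} R ∧ AnalyticHard.{0} R) := by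
    intro h1
    constructor
    · intro X _ _ F hF hFA
      obtain ⟨r, hr, ht, hrF⟩ := slim_reduction X F hF hFA
      exact ⟨fun x => ⟨r x, hC _ (ht x)⟩, hr.subtype_mk,
        fun x y => ⟨fun h => h1 _ _ ((hrF x y).1 h), fun h => (hrF x y).2 (hR _ _ h)⟩⟩
    · intro X _ _ F hF hFA
      obtain ⟨r, hr, ht, hrF⟩ := slim_reduction X F hF hFA
      exact ⟨fun x => ⟨r x, hC _ (ht x)⟩, hr.subtype_mk,
        fun x y => ⟨fun h => h1 _ _ ((hrF x y).1 h), fun h => (hrF x y).2 (hR _ _ h)⟩⟩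
  refine ⟨fun h1 => ⟨(key h1).1, not_reducible_of_hard (key h1).2⟩, fun h1 => ?_⟩
  intro X _ _ F hrefl htrans hFA
  obtain ⟨r, hr, ht, hrF⟩ := slim_quasi X F hrefl htrans hFA
  exact ⟨fun x => ⟨r x, hC _ (ht x)⟩, hr.subtype_mk,
    fun x y => ⟨fun h => h1 _ _ ((hrF x y).1 h), fun h => (hrF x y).2 (hR _ _ h)⟩⟩

end Pool.Agent.KS6_76.SINF
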